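import Pool.Agent.E8helper74.FC.Good

/-!
# The standard conjecture of Künneth type and cutting and pasting

Let `k` be a field (perfect, for example algebraically closed). `MotiveTheory k K D` (`Pool.Agent.E8helper74.FC`)
lists the properties which are used of Voevodsky's category `D` of geometric motives with rational coefficients, of
the motives with compact supports `M^c(X)` of the separated schemes `X` of finite type over `k` (localization,
`M^c(X × 𝔸^1) = M^c(X)(1)[2]`, finite free coverings and finite quotients, no positive morphisms between the motives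
of smooth and proper schemes, generation by such motives) and of a Weil cohomology `H` with coefficients in `K`. For
smooth and proper `X` of dimension `d`, `M^c(X) = h(X)`, `End (h X) = CH^d(X × X)_ℚ`, and `Kuenneth (M^c(X))` says
that all Künneth projectors of `X` are algebraic (the conjecture `C(X)`). `C` is known in dimension at most two, and
`C(X)` and `C(Y)` imply `C(X × Y)`; nothing else about `C` is used.

`Cut c G` is the smallest class of schemes over `k` which

* contains the schemes with `G`, and the affine schemes given by systems of polynomials `f_1, ..., f_s` in any number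
  of variables over finitely generated `k`-algebras `A` of dimension at most `c`, such that the exponents of the `f_l`
  are independent (`Split N f` for some `N > 0`);
* is closed under isomorphisms, under passing from two of `Z`, `X`, `X ∖ Z` to the third (`Z` closed in `X`), from
  `Spec B` to `Spec A` if `B ⊇ A` is a finite free `A`-algebra, from `Spec B` to `Spec B^Γ` for a finite group `Γ`,
  and from `Spec A` to `Spec A[t]`.

We prove for all smooth and proper `X` in `Cut c G`, where all schemes with `G` are smooth and proper:

* the motive of `X` is a direct summand of a finite direct sum of motives `h(Y)(a)[2a]`, where `Y` has `G` or is a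
  product `S × C_1 × ⋯ × C_m` with smooth and proper factors, `dim S ≤ c`, `dim C_i ≤ 1`;
* `C(X)`, if `C` is true in dimension at most `c` and for the schemes with `G`;
* `C(X)`, if `c = 2` and `G` is the class of all smooth and proper schemes for which `C` is true.
-/

set_option autoImplicit false

open CategoryTheory CategoryTheory.Limits AlgebraicGeometry Pool.Agent.Y116.UV
open Pool.Agent.E8helper74.FC

namespace Pool.Agent.Results.MP_4ca46c_ag.CutAndPasteH74

universe v u

/-- the conjecture `C(X)`: the Künneth projectors of `X` are algebraic -/
def ConjC {k : Type} [Field k] {K : Type} [Field K] {D : Type u} [Category.{v} D] [Preadditive D]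
    [HasZeroObject D] [HasShift D ℤ] [∀ n : ℤ, (shiftFunctor D n).Additive] [Pretriangulated D]
    (T : MotiveTheory k K D) (X : Sch k) : Prop :=
  T.Kuenneth (T.Mc X)

theorem result (k : Type) [Field k] (K : Type) [Field K] (D : Type u) [Category.{v} D]
    [Preadditive D] [HasZeroObject D] [HasShift D ℤ] [∀ n : ℤ, (shiftFunctor D n).Additive]
    [Pretriangulated D] [IsTriangulated D] (T : MotiveTheory k K D) :
    (∀ (c : ℕ) (G : Sch k → Prop), (∀ Y, G Y → SmoothProper Y) →
      ∀ X : Sch k, SmoothProper X → Cut c G X →
        ∃ M : D, T.Sum (fun Y => CurveProd c Y ∨ G Y) M ∧ Nonempty (Retract (T.Mc X) M)) ∧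
    (∀ (c : ℕ) (G : Sch k → Prop), (∀ Y, G Y → SmoothProper Y ∧ ConjC T Y) →
      (∀ Y : Sch k, SmoothProper Y → DimLE c Y → ConjC T Y) →
      ∀ X : Sch k, SmoothProper X → Cut c G X → ConjC T X) ∧
    ∀ X : Sch k, SmoothProper X → Cut 2 (fun Y => SmoothProper Y ∧ ConjC T Y) X → ConjC T X := by
  have h1 : ∀ (c : ℕ) (G : Sch k → Prop), (∀ Y, G Y → SmoothProper Y) →
      ∀ X : Sch k, SmoothProper X → Cut c G X →
        ∃ M : D, T.Sum (fun Y => CurveProd c Y ∨ G Y) M ∧ Nonempty (Retract (T.Mc X) M) :=
    fun c G hG X hX h => T.decomposition hG hX h
  have h2 : ∀ (c : ℕ) (G : Sch k → Prop), (∀ Y, G Y → SmoothProper Y ∧ ConjC T Y) →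
      (∀ Y : Sch k, SmoothProper Y → DimLE c Y → ConjC T Y) →
      ∀ X : Sch k, SmoothProper X → Cut c G X → ConjC T X := by
    intro c G hG hc X hX h
    obtain ⟨M, hM, ⟨r⟩⟩ := h1 c G (fun Y hY => (hG Y hY).1) X hX h
    refine T.kuenneth_retract r (T.kuenneth_sum (fun Y hY => ?_) hM)
    rcases hY with hY | hY
    · exact T.kuenneth_curveProd hc hY
    · exact (hG Y hY).2
  exact ⟨h1, h2, h2 2 _ (fun _ h => h) T.surfaces⟩

end Pool.Agent.Results.MP_4ca46c_ag.CutAndPasteH74
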