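import Pool.Agent.E8helper91.ZK.Final

/-!
# A finite criterion for the Künneth standard conjecture, and a gap if it fails

`C` is a `ℚ`-linear rigid symmetric monoidal category in which the endomorphisms of the unit object
are the rational numbers, for example the category of Chow motives over a field; `R` is a symmetric
monoidal additive functor to finite dimensional super vector spaces over a field `K`, for example a
Weil cohomology theory; `M` is an object, for example the motive `h(X)` of a smooth projective
variety `X`, and `p.π i` are the Künneth projectors of `R(M)` (`Projectors`: idempotents with sum one,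
each of pure parity, which commute with the realisations of all endomorphisms of `M`). For
`M = h(X)` the conjecture C says that all `π i` are algebraic, that is, realisations of endomorphisms
of `M` (correspondences of degree zero). Let `b = dim_K R(M)` (`dm R M`), the sum of the Betti numbers.

For objects `N`, `P` let `tw M N n = M ⊗ (M ⊗ (⋯ ⊗ N))` with `n` factors `M`. A morphism
`P ⟶ tw M N n` (a cycle on `Y × X^n × Z`) is *good* for the indices `i` in a set if for each of the `n`
factors `M` and for each of the indices `i` the Künneth component of its realisation of degree `i` in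
this factor is algebraic. The dimension `numDim S` of a set `S` of morphisms is the dimension over `ℚ`
of its span modulo numerical equivalence.

1. The conjecture C holds for `M` if and only if for the single exponent `n = 8 b ^ 6` the good (for all
   `i`) endomorphisms of the `n`-th tensor power of `M` have dimension at least
   `b ^ (2 n) / (n + 1) ^ (b ^ 2)`. If it holds, then this is true for all `n`, and all morphisms are
   good.
2. If the sign conjecture `C⁺` holds for `M` then, for any set of indices, the `π i` with `i` in this
   set are algebraic if and only if 1 holds for the endomorphisms that are good for this set.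
3. If `π i` is not algebraic for some `i` in the set then, for all `N` and `n`, the good morphisms
   `tw M N n ⟶ tw M N n` have dimension at most `(b √(b² - 1)) ^ n (dim R(N))²`.
4. If moreover `C⁺` holds for `M`, or the `π i` are not even algebraic modulo numerical equivalence,
   then, for all `P`, `N`, `n`, the dimension of the good morphisms `P ⟶ tw M N n` is at most
   `(1 - 1 / b²) ^ (n / 2)` times the geometric mean of the dimensions of the spaces of all
   endomorphisms of `P` and of `tw M N n`; for `P = tw M N n`, their proportion is at most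
   `(1 - 1 / b²) ^ (n / 2)`.
5. If the `π i` are algebraic modulo numerical equivalence (for some `u` numerically equivalent to the
   identity the operators `u π i` are algebraic) then every morphism `P ⟶ tw M N n` is numerically
   equivalent to a good one. If moreover some `π i` is not algebraic then some numerically trivial
   endomorphism of `M` has a nonzero realisation, and all the morphisms `tw M P m ⟶ tw M N n` have
   dimension at most `(b - 2) ^ (m + n) dim R(P) dim R(N)`.
-/

set_option autoImplicit false

open CategoryTheory Limits MonoidalCategory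

namespace Pool.Agent.Results.MP_4ca46c_ag.FiniteCriterionH91

open Pool.Agent.Y112.SR Pool.Agent.Y112.KD Pool.Agent.E8helper91.ZO Pool.Agent.E8helper91.ZK

universe v u w y z

theorem result {C : Type u} [Category.{v} C] [Preadditive C] [Linear ℚ C] [MonoidalCategory C]
    [MonoidalPreadditive C] [MonoidalLinear ℚ C] [SymmetricCategory C] [RightRigidCategory C]
    (hU : UnitQ C) {K : Type w} [Field K] (R : SuperRealisation C K) (M : C)
    {ι : Type y} [Fintype ι] (p : Projectors R M ι) :
    -- 1. the criterion
    ((∀ i, Algebraic R (p.π i)) ↔ dm R M ^ (2 * (8 * dm R M ^ 6)) ≤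
      numDim hU (good R p.π (𝟙_ C) (tw M (𝟙_ C) (8 * dm R M ^ 6)) (8 * dm R M ^ 6)) *
        (8 * dm R M ^ 6 + 1) ^ (dm R M ^ 2)) ∧
    ((∀ i, Algebraic R (p.π i)) →
      (∀ n : ℕ, dm R M ^ (2 * n) ≤
        numDim hU (good R p.π (𝟙_ C) (tw M (𝟙_ C) n) n) * (n + 1) ^ (dm R M ^ 2)) ∧
      ∀ (P N : C) (n : ℕ), good R p.π N P n = Set.univ) ∧
    -- subfamilies of the projectors
    ∀ {κ : Type z} (s : κ → ι),
      -- 2. the criterion, if the sign conjecture holds
      (R.CPlus M → ((∀ j, Algebraic R (p.π (s j))) ↔ dm R M ^ (2 * (8 * dm R M ^ 6)) ≤
        numDim hU (good R (fun j => p.π (s j)) (𝟙_ C) (tw M (𝟙_ C) (8 * dm R M ^ 6))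
          (8 * dm R M ^ 6)) * (8 * dm R M ^ 6 + 1) ^ (dm R M ^ 2))) ∧
      -- 3. the gap
      ((¬ ∀ j, Algebraic R (p.π (s j))) → ∀ (N : C) (n : ℕ),
        numDim hU (good R (fun j => p.π (s j)) N (tw M N n) n) ^ 2 ≤
          (dm R M ^ 2 * (dm R M ^ 2 - 1)) ^ n * dm R N ^ 4) ∧
      -- 4. exponential decay
      ((¬ NumAlgebraic R hU (fun j => p.π (s j))) ∨
          (R.CPlus M ∧ ¬ ∀ j, Algebraic R (p.π (s j))) → ∀ (P N : C) (n : ℕ),
        numDim hU (good R (fun j => p.π (s j)) N P n) ^ 2 * (dm R M ^ 2) ^ n ≤
          (dm R M ^ 2 - 1) ^ n * (numDim hU (Set.univ : Set (P ⟶ P)) *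
            numDim hU (Set.univ : Set (tw M N n ⟶ tw M N n)))) ∧
      -- 5. approximation, and the exceptional case
      (NumAlgebraic R hU (fun j => p.π (s j)) →
        (∀ (P N : C) (n : ℕ) (f : P ⟶ tw M N n),
          ∃ f' ∈ good R (fun j => p.π (s j)) N P n, NumZero hU (f - f')) ∧
        ((¬ ∀ j, Algebraic R (p.π (s j))) →
          (∃ φ : M ⟶ M, NumZero hU φ ∧ R.H.map φ ≠ 0) ∧ 2 ≤ dm R M ∧
          ∀ (P N : C) (m n : ℕ), numDim hU (Set.univ : Set (tw M P m ⟶ tw M N n)) ≤
            (dm R M - 2) ^ (m + n) * (dm R P * dm R N))) := by
  refine ⟨criterion hU p, fun h => ⟨lower hU (cplus p h) h, fun P N n => good_univ h P N n⟩,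
    fun s => ⟨criterion_sub hU p s, fun h N n => ?_, ?_, fun h => ⟨fun P N n f => ?_, fun h' => ?_⟩⟩⟩
  · exact gap hU (fun j f => p.comm (s j) f) (fun j => p.comm_par (s j)) (not_mem_idJ hU p s h) N n
  · rintro (h | ⟨hC, h⟩) P N n
    · exact main_case hU (fun j => p.comm_par (s j)) h P N n
    · exact main_case hU (fun j => p.comm_par (s j))
        (not_num hU (fun j f => p.comm (s j) f) hC (not_mem_idJ hU p s h)) P N n
  · exact approx hU h P N n f
  · obtain ⟨e, heO, hee, hNZ, he1, hrk⟩ := exceptional hU (fun j f => p.comm (s j) f) h
      (not_mem_idJ hU p s h')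
    exact ⟨exists_phantom hU (Submodule.sub_mem _ (Op.id M) heO) hNZ (sub_ne_zero.2 he1.symm),
      by omega, fun P N m n => exceptional_dim hU heO hee hNZ hrk P N m n⟩

end Pool.Agent.Results.MP_4ca46c_ag.FiniteCriterionH91
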