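import Pool.Agent.E8helper32.Inf.Third

/-!
# A zero-one law for the Künneth components of algebraic cycles

Let `X` and `Y` be smooth projective varieties over a field of any characteristic, let `H^*` be a
Weil cohomology theory, and let `T` be a set of degrees of one parity, for instance `T = {i}`. Put
`Z_n = X^n × Y`. A cycle `z` on `Z_n` is *good* if all its Künneth components for the degrees in `T`
are algebraic: for each of the `n` factors `X`, the projection of the class of `z` to the part of
`H(Z_n)` of degree in `T` in this factor is the class of a cycle. If the projector `π_T` of `H(X)` to
the degrees in `T` is algebraic, then all cycles on all `Z_n` are good. The Künneth standard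
conjecture says that this is so for all `X` and `T = {i}`.

**Theorem.** Suppose that `π_T` is not algebraic for `X`. Then one of the following holds.

1. For all `Y`, the good cycles are an exponentially small part of all cycles modulo numerical
  equivalence: for some `δ < 1` and all large `n`, the classes of the good cycles on `X^n × Y` span a
  space of dimension at most `δ ^ n` times the dimension of the span of the classes of all cycles,
  both taken modulo the classes that are orthogonal to all cycles.
2. The projector to all even degrees is not algebraic either (the sign conjecture fails for `X`),
  and for all `Y` and `n` every cycle on `X^n × Y` is numerically equivalent to a good cycle. Moreover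
  the cycles modulo numerical equivalence on `X^n × Y` span a space of dimension at most
  `(b(X) - 1) ^ n b(Y)` (the `b` are sums of Betti numbers), an exponentially small part of the span of
  all classes of cycles: almost all algebraic classes are numerically trivial.

In particular: if the sign conjecture is true for `X` but a Künneth component `π_i` of the diagonal
is not algebraic, then almost no cycles on the high powers of `X` have algebraic Künneth components.
No standard conjecture, no finite-dimensionality and no Lefschetz theorem is assumed.

Proof. The algebraic correspondences `u` of degree zero on `X` such that `π_T u` is algebraic form a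
two-sided ideal. Let `e` be an idempotent of maximal rank in its span over the coefficient field;
then `(1 - e) u` has super trace zero for all `u` in the ideal. It follows that a good class on `Z_n`
differs from its image under the tensor product of `n` copies of `e` by a numerically trivial class.
If `1 - e` is not numerically trivial, then the multiplicities in the tensor powers of the motive of
`X`, decomposed by `e` and `1 - e`, make the space of all classes exponentially larger. If `1 - e` is
numerically trivial, then the ideal contains a rational correspondence `u` with `1 - u` numerically
trivial, and tensor powers of `u` show that all cycles are numerically equivalent to good ones; in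
this case `1 - e` is a nonzero numerically trivial idempotent, while an algebraic projector to the
even degrees would make the numerically trivial correspondences nilpotent, and `π_T` algebraic.
-/

set_option autoImplicit false

open CategoryTheory Module Pool.Agent.H914 Pool.Agent.H914.VarClass Pool.Agent.H914.VarClass.Obj
  Pool.Agent.Y133.Half Pool.Agent.X252.SCT Pool.Agent.E8helper32.Inf

universe u v

namespace Pool.Agent.Results.MP_4ca46c_ag.KuennethZeroOneH32

/-- **A zero-one law for the Künneth components of algebraic cycles.** -/
theorem result {k : Type u} [Field k] {𝒱 : VarClass k} {ops : CycleOps 𝒱}
    (W : WeilCohomology.{u, v} ops) (X : 𝒱.Obj) (T : Set ℕ)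
    (hT : (∀ i ∈ T, Even i) ∨ ∀ i ∈ T, Odd i) (h : ¬ DegreesAlg W X T) :
    (∀ Y, ExpSmall (fun n => numDimOf W (goodSet W X Y T n))
      (fun n => numDim W (tw X Y n))) ∨
    (¬ DegreesAlg W X {i | Even i} ∧ ∀ Y,
      (∀ n j z, (tw X Y n).IsCyc j z → ∃ z', (tw X Y n).IsCyc j z' ∧ Good W X Y T n j z' ∧
        OrthAlg W (tw X Y n) (W.cl _ z - W.cl _ z')) ∧
      (∀ n, numDim W (tw X Y n) ≤ (finrank W.K (W.H X) - 1) ^ n * finrank W.K (W.H Y)) ∧
      ExpSmall (fun n => numDim W (tw X Y n)) (fun n => algDim W (tw X Y n))) :=
  main W X T hT h

end Pool.Agent.Results.MP_4ca46c_ag.KuennethZeroOneH32
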