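import Pool.Agent.E8helper99.SM.Cyc

/-!
# The standard conjecture C and a single numerically trivial cycle

Let `X` be a smooth projective variety of dimension `n ≥ 1` over a field of any characteristic, let
`D` be a divisor on `X`, and let `H^*` be a Weil cohomology theory. On `X × X` consider the divisor
`δ = X × D - D × X` and, for a cycle `φ` of codimension `n - 1`, the cycle

  `ν_φ = 2 Δ_* D + δ ^ 2 φ`

of codimension `n + 1`, where `Δ` is the diagonal embedding.

**Theorem.**
1. For a suitable `φ` the cycle `ν_φ` is numerically equivalent to zero.
2. Suppose that the hard Lefschetz theorem holds for `D` (for example `D` is ample and `H^*` is one of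
  the classical theories). Then `ν_φ` is homologically equivalent to zero for some `φ` if and only if
  the standard conjecture B holds for `X` and `D`; and then the standard conjecture C holds for `X`.
3. In particular B and C hold for `X` if on `X × X` numerical and homological equivalence agree for
  the cycles of the one codimension `n + 1`.
4. If B fails for `X` and `D`, in particular if C fails for `X`, then almost all algebraic classes on
  high powers of `X`, times an arbitrary square, are numerically trivial: there is a constant `C`
  such that for all `m` and all `Z`, at most the proportion `C √(log (m + 2) / (m + 1))` of the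
  algebraic classes on `X^(m + 1) × Z × Z` is not numerically trivial; and similarly for
  `X^(m + 1) × Y` and `X^(m + 1) × Y × Z × Z`.

Smirnov (1997) deduced B and C for `X` from the agreement of numerical and homological equivalence on
`X × X` in all codimensions.

Proof. The operators of `H(X)` given by correspondences with coefficients in the coefficient field
form a graded algebra `A`; let `N` be its ideal of numerically trivial elements, and let `L ∈ A` be
the cup product with `D`. The class `ν_φ` acts as `2 L + [L, [L, f]]` if `φ` acts as `f`. If
`[L, [L, e]] ∈ N` then `L e` is nilpotent modulo `N` by a lemma of Jacobson, hence its super trace is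
zero. As the double commutator with `L` is self-adjoint for the super trace, it follows that
`-2 L = [L, [L, f]]` modulo `N` for some `f ∈ A` of degree `-1`. This proves 1. If hard Lefschetz
holds then the double commutator with `L` is injective on the operators of degree `-1`, and therefore
`[L, [L, f]] = - 2 L` implies that `f` is the operator of the `sl(2)`-triple of `L`; this gives 2, and
1 and 2 give 3. Then 4 follows with the infection law for the conjecture D.
-/

set_option autoImplicit false

open CategoryTheory Module Pool.Agent.H914 Pool.Agent.H914.VarClass Pool.Agent.H914.VarClass.Obj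
  Pool.Agent.Y133.Half Pool.Agent.E8helper24.INF Pool.Agent.E8helper99.SM

universe u v

namespace Pool.Agent.Results.MP_4ca46c_ag.OneNumTrivialCycleH99

/-- **The standard conjecture C and a single numerically trivial cycle.** -/
theorem result {k : Type u} [Field k] {𝒱 : VarClass k} {ops : CycleOps 𝒱}
    (W : WeilCohomology.{u, v} ops) (X : 𝒱.Obj) (hX : 1 ≤ X.dim) (D : X.Cycles)
    (hD : X.IsCyc 1 D) :
    (∃ φ, (X.prod X).IsCyc (X.dim - 1) φ ∧
      (X.prod X).IsCyc (X.dim + 1) (testCyc ops D φ) ∧
      NumZero ops (X.prod X) (X.dim + 1) (testCyc ops D φ)) ∧
    (HardLefschetz W X D →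
      (LefschetzB W X D ↔ ∃ φ, (X.prod X).IsCyc (X.dim - 1) φ ∧
        W.cl (X.prod X) (testCyc ops D φ) = 0) ∧
      (LefschetzB W X D → KunnethStd W X) ∧
      (HomEqNumIn W (X.prod X) (X.dim + 1) → LefschetzB W X D ∧ KunnethStd W X) ∧
      (¬ LefschetzB W X D → ∃ C : ℝ, ∀ m : ℕ,
        (∀ Z : 𝒱.Obj, AtMost W (C * rate m) ((pw X m).prod (Z.prod Z))) ∧
        (∀ Y : 𝒱.Obj, AtMost W (C * rate m * finrank W.K (W.H Y)) ((pw X m).prod Y)) ∧
        (∀ Y Z : 𝒱.Obj, AtMost W (C * rate m * finrank W.K (W.H Y))
          ((pw X m).prod (Y.prod (Z.prod Z)))))) := by
  refine ⟨?_, fun hHL => ⟨lef_iff hD hHL, kunneth_of_lef hD hHL, smirnov hD hHL,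
    infection_of_not_lef hX hD hHL⟩⟩
  obtain ⟨φ, hφ, h⟩ := exists_testCyc W hX hD
  exact ⟨φ, hφ, isCyc_testCyc hX hD hφ, h⟩

end Pool.Agent.Results.MP_4ca46c_ag.OneNumTrivialCycleH99
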